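import Pool.Agent.H45.ERWBar
import Pool.Agent.H45.ERWOd

open MeasureTheory Set Filter Topology Pool.Agent.H45.ERW Pool.Agent.H45.Coin Pool.Agent.H45.AR

theorem Pool.Agent.Results.MP_204ba2_pr.ZeroSpeed.result :
    ∃ (ν : Measure (ℕ → ℝ)) (_ : IsProbabilityMeasure ν),
      (∀ᵐ σ ∂ν, ∀ n, σ n ∈ Icc (0 : ℝ) 1) ∧
      0 < ν {σ | ∀ n, 1 ≤ n → 0 < σ n} ∧ 0 < ν {σ | ∀ n, 1 ≤ n → σ n < 1} ∧
      (∀ᵐ σ ∂ν, HasSum (fun i : ℕ => 2 * σ (i + 1) - 1) 3) ∧
      ∀ X : (ℤ → ℕ → ℝ) → (ℕ → ℝ) → ℕ → ℤ, (∀ ω u, X ω u 0 = 0) →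
        (∀ ω u n, X ω u (n + 1) = X ω u n + if u n < ω (X ω u n)
          ((Finset.range (n + 1)).filter fun m => X ω u m = X ω u n).card then 1 else -1) →
        ∀ᵐ p ∂((Measure.infinitePi fun _ : ℤ => ν).prod
            (Measure.infinitePi fun _ : ℕ => volume.restrict (Icc (0 : ℝ) 1))),
          Tendsto (fun n : ℕ => (X p.1 p.2 n : ℝ) / n) atTop (𝓝 0) := by
  have hm : Measurable stk := .of_discrete
  have hae : ∀ P : (ℕ → ℝ) → Prop, (∀ c, P (stk c)) → ∀ᵐ σ ∂((law p8).toMeasure.map stk), P σ := by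
    intro P hP
    have : ∀ᵐ σ ∂((law p8).toMeasure.map stk), σ ∈ range stk := by
      exact (ae_map_iff hm.aemeasurable (countable_range stk).measurableSet).2
        (Eventually.of_forall fun c => mem_range_self c)
    filter_upwards [this] with σ ⟨c, hc⟩ using hc ▸ hP c
  have hpos : ∀ S : Set (ℕ → ℝ), stk (0, true) ∈ S → 0 < ((law p8).toMeasure.map stk) S := by
    intro S hS
    refine lt_of_lt_of_le ?_ ((measure_mono (s := {(0, true)}) (by simpa using hS)).trans
      (Measure.le_map_apply hm.aemeasurable S))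
    rw [PMF.toMeasure_apply_singleton _ _ .of_discrete, law_apply]
    exact ENNReal.div_pos (p8_ne 0) (by simp)
  have : IsProbabilityMeasure ((law p8).toMeasure.map stk) :=
    Measure.isProbabilityMeasure_map hm.aemeasurable
  refine ⟨(law p8).toMeasure.map stk, inferInstance, hae _ stk_mem, hpos _ fun n _ => ?_,
    hpos _ fun n _ => ?_, hae _ stk_sum, fun X h0 h1 => ?_⟩
  · simp only [stk, if_true]; split_ifs <;> norm_num
  · simp only [stk, if_true]; split_ifs <;> norm_num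
  · have e : X = fun ω u n => (st ω u n).1 := by
      funext ω u n
      exact st_unique ω u (X ω u) (h0 ω u) (h1 ω u) n
    subst e
    have hM : MeasurableSet {p : (ℤ → ℕ → ℝ) × (ℕ → ℝ) |
        Tendsto (fun n : ℕ => ((st p.1 p.2 n).1 : ℝ) / n) atTop (𝓝 0)} :=
      measurableSet_tendsto _ fun n =>
        ((Measurable.of_discrete (f := fun x : ℤ => (x : ℝ))).comp (measurable_st n).fst).div_const _
    have hm2 : Measurable fun (c : ℤ → ℕ × Bool) (y : ℤ) => stk (c y) :=
      measurable_pi_lambda _ fun y => hm.comp (measurable_pi_apply y)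
    rw [← Measure.infinitePi_map_pi _ (f := fun _ => stk) fun _ => hm]
    refine (Measure.ae_prod_iff_ae_ae (ν := iidU) hM).2
      ((ae_map_iff hm2.aemeasurable ?_).2 zero_speed)
    exact measurable_measure_prodMk_left hM.compl (measurableSet_singleton 0)
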